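import Pool.Agent.P.MP_6d14ae_al.J.Burn

/-! A finite group with a complement to every Sylow subgroup is solvable (P. Hall). -/

set_option autoImplicit false

namespace Pool.Agent.P.MP_6d14ae_al.J

open MulAction

theorem exists_pnormal (G : Type) [Group G] [Finite G] [Nontrivial G] [Group.IsSolvable G] :
    ∃ s : ℕ, s.Prime ∧ ∃ M : Subgroup G, M.Normal ∧ M ≠ ⊥ ∧ IsPGroup s M := by
  obtain ⟨N, ⟨hN, h0⟩, hm⟩ := wellFounded_lt.has_min {N : Subgroup G | N.Normal ∧ N ≠ ⊥}
    ⟨⊤, inferInstance, top_ne_bot⟩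
  have h1 : ⁅N, N⁆ = ⊥ := by
    by_contra h
    exact hm _ ⟨inferInstance, h⟩ (Group.IsSolvable.commutator_lt_of_ne_bot h0)
  have h2 : ∀ a ∈ N, ∀ b ∈ N, Commute a b := fun a ha b hb =>
    commutatorElement_eq_one_iff_commute.1
      (Subgroup.mem_bot.1 (h1 ▸ Subgroup.commutator_mem_commutator ha hb))
  obtain ⟨s, hs, hd⟩ := Nat.exists_prime_and_dvd ((N.one_lt_card_iff_ne_bot).2 h0).ne'
  have := Fact.mk hs
  obtain ⟨x, hx⟩ := exists_prime_orderOf_dvd_card' s hd
  let M : Subgroup G :=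
    { carrier := {g | g ∈ N ∧ g ^ s = 1}
      one_mem' := ⟨N.one_mem, one_pow _⟩
      mul_mem' := fun {a b} ha hb => ⟨N.mul_mem ha.1 hb.1, by
        rw [(h2 a ha.1 b hb.1).mul_pow, ha.2, hb.2, one_mul]⟩
      inv_mem' := fun {a} ha => ⟨N.inv_mem ha.1, by rw [inv_pow, ha.2, inv_one]⟩ }
  refine ⟨s, hs, M, ⟨fun a ha g => ⟨hN.conj_mem a ha.1 g, by
    rw [conj_pow, ha.2, mul_one, mul_inv_cancel]⟩⟩, fun h => ?_,
    fun g => ⟨1, Subtype.ext (by simpa using g.2.2)⟩⟩
  have h3 : x.1 ∈ M := ⟨x.2, by rw [← hx, ← Subgroup.coe_pow, pow_orderOf_eq_one]; rfl⟩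
  rw [h, Subgroup.mem_bot] at h3
  rw [show x = 1 from Subtype.ext h3, orderOf_one] at hx
  exact hs.one_lt.ne hx

theorem relIndex_eq {G : Type} [Group G] [Finite G] {H K : Subgroup G}
    (h : H.index.Coprime K.index) : H.relIndex K = H.index := by
  have h1 := Subgroup.relIndex_mul_index (inf_le_right : H ⊓ K ≤ K)
  have h2 := Subgroup.index_dvd_of_le (inf_le_left : H ⊓ K ≤ H)
  rw [← h1, Subgroup.inf_relIndex_right] at h2
  refine le_antisymm ?_ (Nat.le_of_dvd (Nat.pos_of_ne_zero Subgroup.index_ne_zero_of_finite)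
    (h.dvd_of_dvd_mul_right h2))
  rw [← H.relIndex_top_right]
  exact Subgroup.relIndex_le_of_le_right le_top Subgroup.index_ne_zero_of_finite

/-- a subgroup of index prime to the degree is transitive -/
theorem trans_of_coprime {G X : Type} [Group G] [Finite G] [Finite X] [MulAction G X]
    [IsPretransitive G X] (S : Subgroup G) (h : (Nat.card X).Coprime S.index) (x y : X) :
    ∃ s ∈ S, s • x = y := by
  have h3 : (orbit S x).ncard = (stabilizer G x).relIndex S := by
    rw [← index_stabilizer]; rfl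
  rw [relIndex_eq (by rwa [index_stabilizer_of_transitive]), index_stabilizer_of_transitive,
    ← Set.ncard_univ] at h3
  have : y ∈ orbit S x := Set.eq_of_subset_of_ncard_le (Set.subset_univ _) h3.ge ▸ Set.mem_univ y
  obtain ⟨s, hs⟩ := this
  exact ⟨s, s.2, hs⟩

/-- every Sylow subgroup has a complement -/
def Cpl (G : Type) [Group G] : Prop :=
  ∀ p : ℕ, p.Prime → ∃ K : Subgroup G, ¬p ∣ Nat.card K ∧ ∃ j, K.index = p ^ j

theorem hall (n : ℕ) : ∀ (G : Type) [Group G] [Finite G], Nat.card G = n → Cpl G →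
    Group.IsSolvable G := by
  induction n using Nat.strong_induction_on with
  | _ n ih =>
  intro G _ _ hn H
  have n0 : 0 < n := hn ▸ Nat.card_pos
  choose! K hK j hj using H
  have sub : ∀ p, p.Prime → p ∣ n → K p ≠ ⊤ ∧ Group.IsSolvable (K p) := fun p hp hd => by
    have h1 : K p ≠ ⊤ := fun h => hK p hp (by rw [h, Subgroup.card_top, hn]; exact hd)
    refine ⟨h1, ih _ ?_ (K p) rfl fun q hq => ?_⟩
    · have := (K p).card_mul_index
      have := Subgroup.one_lt_index_of_ne_top h1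
      have : 0 < Nat.card (K p) := Nat.card_pos
      nlinarith
    · by_cases e : q = p
      · exact ⟨⊤, by rw [Subgroup.card_top, e]; exact hK p hp, 0, by simp⟩
      · refine ⟨(K q).subgroupOf (K p), fun h => hK q hq (h.trans
          (Subgroup.card_comap_dvd_of_injective _ _ (K p).subtype_injective)), j q, ?_⟩
        rw [← hj q hq]
        exact relIndex_eq (by
          rw [hj q hq, hj p hp]; exact Nat.coprime_pow_primes _ _ hq hp e)
  by_cases h3 : ∀ p s, p.Prime → s.Prime → ∃ t, t.Prime ∧ t ∣ n ∧ t ≠ p ∧ t ≠ s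
  · obtain ⟨p, hp, hpn, -⟩ := h3 2 2 Nat.prime_two Nat.prime_two
    obtain ⟨q, hq, hqn, hqp, -⟩ := h3 p p hp hp
    have := (sub p hp hpn).2
    have : Nontrivial (K p) := by
      refine (K p).bot_or_nontrivial.resolve_left fun h => ?_
      have h1 := hj p hp
      rw [h, Subgroup.index_bot, hn] at h1
      exact hqp ((Nat.prime_dvd_prime_iff_eq hq hp).1 (hq.dvd_of_dvd_pow (h1 ▸ hqn)))
    obtain ⟨s, hs, M, hM, M0, hMs⟩ := exists_pnormal (K p)
    obtain ⟨t, ht, htn, htp, hts⟩ := h3 p s hp hs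
    have := Fact.mk hs
    have hc : Nat.card (G ⧸ K t) = t ^ j t := hj t ht
    obtain ⟨y, hy⟩ := hMs.nonempty_fixed_point_of_prime_not_dvd_card (G ⧸ K t) fun h =>
      hts ((Nat.prime_dvd_prime_iff_eq hs ht).1 (hs.dvd_of_dvd_pow (hc ▸ h))).symm
    have hN : ∀ m ∈ M, (m : G) ∈ (K t).normalCore := fun m hm => by
      rw [Subgroup.normalCore_eq_ker, MonoidHom.mem_ker]
      ext z
      obtain ⟨x, hx, rfl⟩ := trans_of_coprime (K p) (by
        rw [hc, hj p hp]; exact Nat.coprime_pow_primes _ _ ht hp htp) y z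
      have h1 : (x⁻¹ * m * x) • y = y := hy ⟨_, hM.conj_mem' m hm ⟨x, hx⟩⟩
      show (m : G) • x • y = x • y
      rw [mul_smul, mul_smul, inv_smul_eq_iff] at h1
      exact h1
    set N := (K t).normalCore
    have N0 : N ≠ ⊥ := fun h => M0 (eq_bot_iff.2 fun m hm =>
      Subgroup.mem_bot.2 (Subtype.ext (Subgroup.mem_bot.1 (h ▸ hN m hm))))
    have := (sub t ht htn).2
    have : Group.IsSolvable N := Group.isSolvable_of_isSolvable_injective
      (Subgroup.inclusion_injective (K t).normalCore_le)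
    have : Group.IsSolvable (G ⧸ N) := by
      refine ih _ ?_ (G ⧸ N) rfl fun r hr => ⟨(K r).map (QuotientGroup.mk' N), fun h =>
        hK r hr (h.trans (Subgroup.card_map_dvd _ _)), ?_⟩
      · have := N.card_mul_index
        have := (N.one_lt_card_iff_ne_bot).2 N0
        rw [← N.index_eq_card]
        nlinarith
      · obtain ⟨i, -, hi⟩ := (Nat.dvd_prime_pow hr).1
          (hj r hr ▸ (K r).index_map_dvd (QuotientGroup.mk'_surjective N))
        exact ⟨i, hi⟩
    exact Group.isSolvable_of_ker_le_range N.subtype (QuotientGroup.mk' N) (by simp)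
  · push Not at h3
    obtain ⟨p, s, hp, hs, h⟩ := h3
    refine burnside (a := n) (b := n) hp hs n G hn ?_
    rw [← mul_pow]
    refine (Nat.dvd_pow_self_iff n0.ne' (mul_pos hp.pos hs.pos).ne').2 fun t ht => ?_
    have h1 := Nat.mem_primeFactors.1 ht
    refine Nat.mem_primeFactors.2 ⟨h1.1, ?_, (mul_pos hp.pos hs.pos).ne'⟩
    by_cases e : t = p
    · exact e ▸ dvd_mul_right _ _
    · exact h t h1.1 h1.2.1 e ▸ dvd_mul_left _ _

end Pool.Agent.P.MP_6d14ae_al.J
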