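import Pool.Agent.P.MP_6d14ae_al.Ppw
import Pool.Agent.P.MP_6d14ae_al.J.Solv

/-! The additive group attached to the permutation group of a finite cycle set. -/

set_option autoImplicit false

namespace Pool.Agent.P.MP_6d14ae_al.J

open Equiv

theorem exists_brace {X : Type} [Fintype X] {σ : X → Perm X}
    (ax : ∀ x y z, σ (σ x y) (σ x z) = σ (σ y x) (σ y z)) :
    ∃ (E : Type) (_ : AddCommGroup E) (_ : DistribMulAction (GG σ) E) (κ : GG σ ≃ E) (a : X → E),
      (∀ g h, κ (g * h) = κ g + g • κ h) ∧ (∀ (g : GG σ) x, a (g • x) = g • a x) ∧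
      AddSubgroup.closure (Set.range a) = ⊤ ∧ ∀ x, κ (sg σ x)⁻¹ = a x := by
  classical
  let a : X → GG σ → GG σ := fun x g => sg σ (g.1 x) * g
  have hac : ∀ x y g, a x (a y g) = a y (a x g) := by
    intro x y g
    apply Subtype.ext
    show σ ((σ (g.1 y) * g.1) x) * (σ (g.1 y) * g.1) = σ ((σ (g.1 x) * g.1) y) * (σ (g.1 x) * g.1)
    rw [← mul_assoc, ← mul_assoc, Perm.mul_apply, Perm.mul_apply, ax' ax]
  have hsa : ∀ y g, sg σ y * g = a (g.1⁻¹ y) g := by
    intro y g
    apply Subtype.ext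
    show σ y * g.1 = σ (g.1 (g.1⁻¹ y)) * g.1
    simp
  have hsurj : ∀ x, Function.Surjective (a x) := by
    intro x g
    have : ∃ h, a x h = g * (a x 1)⁻¹ * a x 1 := by
      refine GG_ind (fun u => ∃ h, a x h = u * a x 1) ⟨1, by simp⟩ ?_ _
      rintro y u ⟨h, hh⟩
      refine ⟨a ((u * a x 1).1⁻¹ y) h, ?_⟩
      rw [hac, hh, ← hsa, mul_assoc]
    simpa using this
  let A : X → Perm (GG σ) := fun x =>
    Equiv.ofBijective (a x) (Finite.surjective_iff_bijective.1 (hsurj x))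
  set E := Subgroup.closure (Set.range A) with hE
  have hc : IsMulCommutative E := Subgroup.isMulCommutative_closure (by
    rintro _ ⟨x, rfl⟩ _ ⟨y, rfl⟩
    ext g : 1
    exact hac x y g)
  have hc2 : ∀ e e' : E, e * e' = e' * e := hc.is_comm.comm
  let AE : X → E := fun x => ⟨A x, Subgroup.subset_closure ⟨x, rfl⟩⟩
  let ev : E → GG σ := fun e => e.1 1
  have hev : ∀ x e, ev (AE x * e) = a x (ev e) := fun _ _ => rfl
  have hs : Function.Surjective ev := by
    refine GG_ind (fun g => ∃ e, ev e = g) ⟨1, rfl⟩ ?_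
    rintro y g ⟨e, he⟩
    exact ⟨AE (g.1⁻¹ y) * e, by rw [hev, he, hsa]⟩
  have hi : Function.Injective ev := by
    intro e e' h
    apply Subtype.ext
    ext g : 1
    obtain ⟨u, rfl⟩ := hs g
    have h1 : e.1 (u.1 1) = u.1 (e.1 1) := congrArg ev (hc2 e u)
    have h2 : e'.1 (u.1 1) = u.1 (e'.1 1) := congrArg ev (hc2 e' u)
    have h3 : e.1 1 = e'.1 1 := h
    show e.1 (u.1 1) = e'.1 (u.1 1)
    rw [h1, h2, h3]
  let eq : E ≃ GG σ := Equiv.ofBijective ev ⟨hi, hs⟩
  let _ : CommGroup E := { (inferInstance : Group E) with mul_comm := hc2 }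
  let R : GG σ → Perm (GG σ) := fun h => Equiv.mulRight h⁻¹
  have hR : ∀ h x, R h * A x * (R h)⁻¹ = A (h • x) := fun h x => by
    ext g : 1
    show sg σ ((g * h⁻¹⁻¹).1 x) * (g * h⁻¹⁻¹) * h⁻¹ = sg σ (g.1 (h.1 x)) * g
    rw [inv_inv, mul_assoc, mul_inv_cancel_right]
    rfl
  have hRm : ∀ h h', R (h * h') = R h * R h' := fun h h' => by
    ext g : 1
    show g * (h * h')⁻¹ = g * h'⁻¹ * h⁻¹
    group
  have hm : ∀ h, ∀ e ∈ E, R h * e * (R h)⁻¹ ∈ E := fun h e he => by
    induction he using Subgroup.closure_induction with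
    | mem b hb => obtain ⟨y, rfl⟩ := hb; rw [hR]; exact (AE _).2
    | one => simp
    | mul b c _ _ hb hc => simpa [mul_assoc] using E.mul_mem hb hc
    | inv b _ hb => simpa [mul_assoc] using E.inv_mem hb
  let _ : DistribMulAction (GG σ) (Additive E) :=
    { smul := fun h e => Additive.ofMul ⟨_, hm h e.toMul.1 e.toMul.2⟩
      one_smul := fun e => Subtype.ext (by
        show R 1 * e.toMul.1 * (R 1)⁻¹ = e.toMul.1
        simp [R, ← Perm.one_def])
      mul_smul := fun h h' e => Subtype.ext (by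
        show R (h * h') * e.toMul.1 * (R (h * h'))⁻¹ = R h * (R h' * e.toMul.1 * (R h')⁻¹) * (R h)⁻¹
        rw [hRm]; group)
      smul_zero := fun h => Subtype.ext (by
        show R h * 1 * (R h)⁻¹ = 1
        group)
      smul_add := fun h e e' => Subtype.ext (by
        show R h * (e.toMul.1 * e'.toMul.1) * (R h)⁻¹ =
          R h * e.toMul.1 * (R h)⁻¹ * (R h * e'.toMul.1 * (R h)⁻¹)
        group) }
  refine ⟨Additive E, inferInstance, inferInstance,
    (Equiv.inv _).trans (eq.symm.trans Additive.ofMul), fun x => Additive.ofMul (AE x),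
    fun g h => ?_, fun g x => Subtype.ext (hR g x).symm, ?_, fun x => ?_⟩
  · rw [add_comm]
    refine congrArg Additive.ofMul (eq.symm_apply_eq.2 ?_)
    show (g * h)⁻¹ = (eq.symm h⁻¹).1 (eq (eq.symm g⁻¹) * g⁻¹⁻¹) * g⁻¹
    rw [eq.apply_symm_apply, mul_inv_cancel, mul_inv_rev]
    exact congrArg (· * g⁻¹) (eq.apply_symm_apply h⁻¹).symm
  · refine eq_top_iff.2 fun ⟨e, he⟩ _ => ?_
    induction he using Subgroup.closure_induction with
    | mem b hb => obtain ⟨y, rfl⟩ := hb; exact AddSubgroup.subset_closure ⟨y, rfl⟩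
    | one => exact zero_mem _
    | mul b c _ _ hb hc => exact add_mem (hb trivial) (hc trivial)
    | inv b _ hb => exact neg_mem (hb trivial)
  · exact congrArg Additive.ofMul (eq.symm_apply_eq.2 ((inv_inv _).trans (mul_one _).symm))

/-- the elements killed by `N` -/
def tor (E : Type) [AddCommGroup E] (N : ℕ) : AddSubgroup E := (nsmulAddMonoidHom N).ker

theorem mem_tor {E : Type} [AddCommGroup E] {N : ℕ} {e : E} : e ∈ tor E N ↔ N • e = 0 := Iff.rfl

theorem tor_inf {E : Type} [AddCommGroup E] {N N' : ℕ} (h : N.Coprime N') {e : E}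
    (he : e ∈ tor E N) (he' : e ∈ tor E N') : e = 0 :=
  AddMonoid.addOrderOf_eq_one_iff.1 (Nat.eq_one_of_dvd_coprimes h
    (addOrderOf_dvd_of_nsmul_eq_zero he) (addOrderOf_dvd_of_nsmul_eq_zero he'))

theorem tor_cop {E : Type} [AddCommGroup E] [Finite E] {N N' : ℕ} (h : N.Coprime N') :
    (Nat.card (tor E N)).Coprime N' := by
  refine Nat.coprime_of_dvd fun q hq h1 h2 => ?_
  have := Fact.mk hq
  obtain ⟨x, hx⟩ := exists_prime_addOrderOf_dvd_card' q h1
  have h3 : q ∣ N := hx ▸ addOrderOf_dvd_of_nsmul_eq_zero (Subtype.ext x.2)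
  exact hq.one_lt.ne' (Nat.eq_one_of_dvd_coprimes h h3 h2)

theorem tor_split {E : Type} [AddCommGroup E] {N N' : ℕ} (h : N.Coprime N')
    (hE : Nat.card E = N * N') (e : E) :
    ∃ u v : E, N' • u ∈ tor E N ∧ N • v ∈ tor E N' ∧ e = N' • u + N • v := by
  obtain ⟨α, β, hαβ⟩ := Nat.isCoprime_iff_coprime.2 h
  refine ⟨β • e, α • e, ?_, ?_, ?_⟩
  · rw [mem_tor, ← mul_nsmul', ← hE, card_nsmul_eq_zero']
  · rw [mem_tor, ← mul_nsmul', mul_comm, ← hE, card_nsmul_eq_zero']
  · rw [← natCast_zsmul, ← natCast_zsmul, ← mul_smul, ← mul_smul, ← add_smul,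
      show (N' : ℤ) * β + N * α = 1 by linear_combination hαβ, one_smul]

theorem card_tor {E : Type} [AddCommGroup E] [Finite E] {N N' : ℕ} (h : N.Coprime N')
    (hE : Nat.card E = N * N') : Nat.card (tor E N) = N := by
  have h1 : Nat.card E ≤ Nat.card (tor E N) * Nat.card (tor E N') := by
    rw [← Nat.card_prod]
    refine Nat.card_le_card_of_surjective (fun p : tor E N × tor E N' => p.1.1 + p.2.1) fun e => ?_
    obtain ⟨u, v, hu, hv, he⟩ := tor_split h hE e
    exact ⟨(⟨_, hu⟩, ⟨_, hv⟩), he.symm⟩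
  have h2 := (tor_cop (E := E) h).dvd_of_dvd_mul_right (hE ▸ (tor E N).card_addSubgroup_dvd_card)
  have h3 := (tor_cop (E := E) h.symm).dvd_of_dvd_mul_left
    (hE ▸ (tor E N').card_addSubgroup_dvd_card)
  have h4 : 0 < N * N' := hE ▸ Nat.card_pos
  have h5 := Nat.le_of_dvd (Nat.pos_of_mul_pos_right h4) h2
  have h6 := Nat.le_of_dvd (Nat.pos_of_mul_pos_left h4) h3
  have h7 := Nat.pos_of_mul_pos_left h4
  nlinarith

section
variable {G E : Type} [Group G] [AddCommGroup E] [DistribMulAction G E] (κ : G ≃ E)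
  (hκ : ∀ g h, κ (g * h) = κ g + g • κ h)

theorem tor_smul {N : ℕ} (g : G) {e : E} (he : e ∈ tor E N) : g • e ∈ tor E N := by
  rw [mem_tor, smul_comm, mem_tor.1 he, smul_zero]

include hκ

theorem k_one : κ 1 = 0 := by simpa using hκ 1 1

theorem k_inv (g : G) : κ g⁻¹ = -(g⁻¹ • κ g) := by
  rw [eq_neg_iff_add_eq_zero, ← hκ, inv_mul_cancel, k_one κ hκ]

/-- the subgroup attached to the elements killed by `N` -/
def sub (N : ℕ) : Subgroup G where
  carrier := {g | κ g ∈ tor E N}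
  one_mem' := show κ 1 ∈ tor E N from (k_one κ hκ).symm ▸ zero_mem (tor E N)
  mul_mem' := fun {a b} ha hb => show κ (a * b) ∈ tor E N from
    (hκ a b).symm ▸ add_mem ha (tor_smul a hb)
  inv_mem' := fun {a} ha => show κ a⁻¹ ∈ tor E N from
    (k_inv κ hκ a).symm ▸ neg_mem (tor_smul _ ha)

theorem card_sub [Finite G] {N N' : ℕ} (h : N.Coprime N') (hG : Nat.card G = N * N') :
    Nat.card (sub κ hκ N) = N ∧ (sub κ hκ N).index = N' := by
  have := Finite.of_equiv _ κ
  have h1 : Nat.card (sub κ hκ N) = N :=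
    (Nat.card_congr (κ.subtypeEquiv fun _ => Iff.rfl)).trans
      (card_tor h ((Nat.card_congr κ).symm.trans hG))
  refine ⟨h1, ?_⟩
  have h2 := (sub κ hκ N).card_mul_index
  rw [h1, hG] at h2
  exact Nat.eq_of_mul_eq_mul_left (Nat.pos_of_mul_pos_right (hG ▸ Nat.card_pos)) h2

theorem solv [Finite G] : Group.IsSolvable G := by
  refine hall _ G rfl fun p hp => ?_
  obtain ⟨j, N, h1, h2⟩ := Nat.exists_eq_pow_mul_and_not_dvd (Nat.card_pos (α := G)).ne' p hp.one_lt.ne'
  have := card_sub κ hκ (Nat.Coprime.pow_right j (hp.coprime_iff_not_dvd.2 h1).symm)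
    (h2.trans (mul_comm _ _))
  exact ⟨_, this.1.symm ▸ h1, j, this.2⟩

end

end Pool.Agent.P.MP_6d14ae_al.J
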