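import Pool.Agent.P.MP_5e916a_al.A.Ch

/-! Groups whose order has at most two prime divisors are solvable (Burnside). -/

set_option autoImplicit false

namespace Pool.Agent.P.MP_6d14ae_al.J

open Pool.Agent.P.MP_b1ffdf_al Pool.Agent.P.MP_5e916a_al CategoryTheory Classical Finset

variable {G : Type} [Group G] [Fintype G]

theorem class_int {χ : G → ℂ} (hχ : IsIrr χ) (g : G) :
    ∃ ω : ℂ, IsIntegral ℤ ω ∧ ω * χ 1 = #(univ.filter (IsConj g ·)) * χ g := by
  obtain ⟨d, hd, e⟩ := hχ.one_ne_zero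
  obtain ⟨V, hV, rfl⟩ := hχ
  have hF : IsClass fun x : G => if IsConj g x then (1 : ℂ) else 0 := fun x y =>
    if_congr ⟨fun h => h.trans (isConj_iff.2 ⟨y, rfl⟩).symm,
      fun h => h.trans (isConj_iff.2 ⟨y, rfl⟩)⟩ rfl rfl
  obtain ⟨c, hc⟩ := schur V hV _ (class_comm V hF)
  have h1 : ∑ x ∈ univ.filter (IsConj g ·), V.ρ x = c • 1 := by
    rw [← hc, Finset.sum_filter]
    exact Finset.sum_congr rfl fun x _ => by split_ifs <;> simp
  have : Nontrivial V := Module.nontrivial_of_finrank_pos (R := ℂ) (by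
    rw [V.char_one] at e
    have : Module.finrank ℂ V = d := by exact_mod_cast e
    omega)
  refine ⟨c, ?_, ?_⟩
  · have h2 := (IsIntegral.of_finite ℤ (∑ x ∈ univ.filter (IsConj g ·),
      MonoidAlgebra.of ℤ G x)).map (MonoidAlgebra.lift ℤ (Module.End ℂ V) G V.ρ)
    simp only [map_sum, MonoidAlgebra.lift_of] at h2
    rw [h1, ← Algebra.algebraMap_eq_smul_one] at h2
    exact (isIntegral_algebraMap_iff (algebraMap ℂ (Module.End ℂ V)).injective).1 h2
  · have h2 := congrArg (LinearMap.trace ℂ V) h1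
    rw [map_sum, map_smul, LinearMap.trace_one, smul_eq_mul, Finset.sum_congr rfl
      (g := fun _ => V.character g) fun x hx => by
        obtain ⟨y, rfl⟩ := isConj_iff.1 (mem_filter.1 hx).2
        exact V.char_conj g y, Finset.sum_const, nsmul_eq_mul] at h2
    rw [V.char_one, h2]

theorem norm_one {χ : G → ℂ} (hχ : IsIrr χ) {g : G} (hi : IsIntegral ℤ (χ g / χ 1))
    (h0 : χ g ≠ 0) : ‖χ g / χ 1‖ = 1 := by
  obtain ⟨d, hd, e⟩ := hχ.one_ne_zero
  have hn : 0 < Nat.card G := Nat.card_pos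
  have hζ := Complex.isPrimitiveRoot_exp _ hn.ne'
  set ζ := Complex.exp (2 * Real.pi * Complex.I / (Nat.card G))
  obtain ⟨m, hm⟩ := hχ.isChar.eigen hn hζ (pow_card_eq_one' (x := g))
  have h1 := hm 0
  have h2 := hm 1
  simp only [pow_zero, mul_zero, mul_one, pow_one] at h1 h2
  have h3 : ∑ i ∈ range (Nat.card G), m i = d := by rw [e] at h1; exact_mod_cast h1.symm
  let K := IntermediateField.adjoin ℚ {ζ}
  have : FiniteDimensional ℚ K := IntermediateField.adjoin.finiteDimensional
    (hζ.isIntegral hn).tower_top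
  have : NumberField K := {}
  let z : K := ⟨ζ, IntermediateField.mem_adjoin_simple_self ℚ ζ⟩
  have hz : z ^ Nat.card G = 1 := Subtype.ext (by simpa using hζ.pow_eq_one)
  let x : K := (∑ i ∈ range (Nat.card G), (m i : K) * z ^ i) / d
  have hx : algebraMap K ℂ x = χ g / χ 1 := by
    rw [h2, e]; simp [x, z]
  have hd' : (d : ℝ) ≠ 0 := by exact_mod_cast hd.ne'
  obtain ⟨n, hn0, h4⟩ := NumberField.Embeddings.pow_eq_one_of_norm_le_one K ℂ (x := x)
    (fun h => by
      rw [h, map_zero, eq_comm, div_eq_zero_iff, e] at hx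
      exact hx.elim h0 (by exact_mod_cast hd.ne'))
    ((isIntegral_algebraMap_iff (algebraMap K ℂ).injective).1 (hx ▸ hi)) fun φ => by
      have h5 : ‖φ z‖ = 1 := Complex.norm_eq_one_of_pow_eq_one
        (by rw [← map_pow, hz, map_one]) hn.ne'
      simp only [x, map_div₀, map_sum, map_mul, map_natCast, map_pow, norm_div,
        Complex.norm_natCast]
      rw [div_le_one (by exact_mod_cast hd), ← h3, Nat.cast_sum]
      refine (norm_sum_le _ _).trans (Finset.sum_le_sum fun i _ => ?_)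
      rw [norm_mul, norm_pow, h5, one_pow, mul_one, Complex.norm_natCast]
  exact Complex.norm_eq_one_of_pow_eq_one (by rw [← hx, ← map_pow, h4, map_one]) hn0.ne'

theorem vanish [IsSimpleGroup G] (hc : ¬ ∀ a b : G, a * b = b * a) {χ : G → ℂ} (hχ : IsIrr χ)
    (h1 : χ ≠ 1) {g : G} (hg : g ≠ 1) {d : ℕ} (e : χ 1 = d)
    (hd : Nat.Coprime #(univ.filter (IsConj g ·)) d) : χ g = 0 := by
  by_contra h0
  obtain ⟨d', hd', e'⟩ := hχ.one_ne_zero
  have hd0 : χ 1 ≠ 0 := by rw [e']; exact_mod_cast hd'.ne'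
  obtain ⟨ω, hω, hω'⟩ := class_int hχ g
  obtain ⟨a, b, hab⟩ := Nat.isCoprime_iff_coprime.2 hd
  have hab' : (a : ℂ) * #(univ.filter (IsConj g ·)) + b * d = 1 := by exact_mod_cast hab
  have h2 := norm_one hχ (g := g) (by
    rw [show χ g / χ 1 = a * ω + b * χ g by
      rw [div_eq_iff hd0]; linear_combination -a * hω' - χ g * hab' - b * χ g * e]
    exact ((isIntegral_algebraMap (x := a)).mul hω).add
      ((isIntegral_algebraMap (x := b)).mul (hχ.isChar.isIntegral g))) h0
  have hψ := hχ.isChar.mul hχ.isChar.dual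
  have h3 : g ∈ kr (χ * fun g => χ g⁻¹) := (mem_kr hψ).2 (by
    rw [norm_div, div_eq_one_iff_eq (norm_ne_zero_iff.2 hd0)] at h2
    simp only [Pi.mul_apply]
    rw [hχ.isChar.conj, hχ.isChar.conj, Complex.mul_conj', Complex.mul_conj', h2])
  have h4 := ((kr_normal hψ.isClass).eq_bot_or_eq_top).resolve_left fun h =>
    hg (by rwa [h, Subgroup.mem_bot] at h3)
  have h5 : (d' : ℂ) * d' = 1 := by
    rw [← (isIrr_iff.1 hχ).2, ip, Finset.sum_congr rfl (g := fun _ => (d' : ℂ) * d') fun h _ => by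
      have := kr_one (h4 ▸ Subgroup.mem_top h : h ∈ kr _)
      simp only [Pi.mul_apply, inv_one, e'] at this
      exact this, Finset.sum_const, card_univ,
      nsmul_eq_mul, ← Nat.card_eq_fintype_card, inv_mul_cancel_left₀ card_ne]
  have h6 : d' = 1 := Nat.eq_one_of_mul_eq_one_right (by exact_mod_cast h5)
  rcases (kr_normal hχ.isChar.isClass).eq_bot_or_eq_top with h | h
  · refine hc fun u v => ?_
    obtain ⟨V, -, rfl⟩ := hχ
    have h7 : Module.finrank ℂ V = 1 := by
      rw [V.char_one, h6] at e'; exact_mod_cast e'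
    have h8 : u * v * u⁻¹ * v⁻¹ ∈ kr V.character := fun w => by
      obtain ⟨s, hs, -⟩ := LinearMap.existsUnique_eq_smul_id_of_finrank_eq_one h7 (V.ρ u)
      have : V.ρ (u * v) = V.ρ (v * u) := by rw [map_mul, map_mul, hs]; ext; simp
      rw [FDRep.character, FDRep.character, mul_assoc, mul_assoc, map_mul, this, ← map_mul]
      congr 2
      group
    rw [h, Subgroup.mem_bot] at h8
    rw [← one_mul (v * u), ← h8]
    group
  · exact h1 (funext fun u => by
      rw [kr_one (h ▸ Subgroup.mem_top u : u ∈ kr χ), e', h6, Nat.cast_one, Pi.one_apply])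

theorem no_class [IsSimpleGroup G] (hc : ¬ ∀ a b : G, a * b = b * a) {g : G} (hg : g ≠ 1)
    {q j : ℕ} (hq : q.Prime) (h : #(univ.filter (IsConj g ·)) = q ^ j) : False := by
  have h1 := congrFun (expand (isChar_reg (G := G)).isClass) g
  rw [if_neg hg, Finset.sum_apply, ← Finset.add_sum_erase _ _ (mem_irrs.2 isIrr_one)] at h1
  have h2 : ∀ ψ : G → ℂ, ip (fun g : G => if g = 1 then (Nat.card G : ℂ) else 0) ψ = ψ 1 :=
    fun ψ => by simp [ip, inv_mul_cancel_left₀ (card_ne (G := G))]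
  have h3 : ∀ ψ ∈ (irrs G).erase 1, ∃ β : ℂ, IsIntegral ℤ β ∧ ψ 1 * ψ g = q * β := fun ψ hψ => by
    have h4 := mem_irrs.1 (mem_of_mem_erase hψ)
    obtain ⟨d, -, e⟩ := h4.one_ne_zero
    by_cases h5 : q ∣ d
    · obtain ⟨c, rfl⟩ := h5
      exact ⟨c * ψ g, (isIntegral_algebraMap (x := (c : ℤ))).mul (h4.isChar.isIntegral g), by
        rw [e]; push_cast; ring⟩
    · exact ⟨0, isIntegral_zero, by
        rw [vanish hc h4 (ne_of_mem_erase hψ) hg e
          (h ▸ Nat.Coprime.pow_left j (hq.coprime_iff_not_dvd.2 h5)), mul_zero, mul_zero]⟩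
  choose! β h4 h5 using h3
  simp only [Pi.smul_apply, smul_eq_mul, h2, Pi.one_apply, mul_one] at h1
  rw [Finset.sum_congr rfl h5, ← Finset.mul_sum] at h1
  have h6 := IsIntegral.sum β h4
  have hq0 : (q : ℂ) ≠ 0 := by exact_mod_cast hq.ne_zero
  rw [show ∑ ψ ∈ (irrs G).erase 1, β ψ = algebraMap ℚ ℂ (-1 / q) by
    rw [map_div₀, map_neg, map_one, map_natCast, eq_div_iff hq0]; linear_combination -h1,
    isIntegral_algebraMap_iff (algebraMap ℚ ℂ).injective] at h6
  obtain ⟨z, hz⟩ := IsIntegrallyClosed.isIntegral_iff.1 h6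
  rw [eq_div_iff (by exact_mod_cast hq.ne_zero), eq_intCast] at hz
  have h7 : z * q = -1 := by exact_mod_cast hz
  exact hq.one_lt.ne' (Nat.dvd_one.1 (Int.natCast_dvd_natCast.1 ⟨-z, by linear_combination h7⟩))

theorem card_class (g : G) : #(univ.filter (IsConj g ·)) = (Subgroup.centralizer {g}).index := by
  rw [Subgroup.centralizer_eq_comap_stabilizer]
  erw [Subgroup.index_comap_of_surjective _ ConjAct.toConjAct.surjective]
  rw [MulAction.index_stabilizer, ← Set.ncard_coe_finset]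
  congr 1
  ext x
  simp only [coe_filter, mem_univ, true_and, Set.mem_ofPred_eq, ConjAct.mem_orbit_conjAct]
  exact isConj_comm

theorem burnside {p q a b : ℕ} (hp : p.Prime) (hq : q.Prime) (n : ℕ) :
    ∀ (G : Type) [Group G] [Finite G], Nat.card G = n → n ∣ p ^ a * q ^ b →
      Group.IsSolvable G := by
  induction n using Nat.strong_induction_on with
  | _ n ih =>
  intro G _ _ hn hd
  let _ := Fintype.ofFinite G
  have := Fact.mk hp
  have := Fact.mk hq
  rcases subsingleton_or_nontrivial G with h | h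
  · infer_instance
  by_cases hs : ∀ N : Subgroup G, N.Normal → N = ⊥ ∨ N = ⊤
  · have : IsSimpleGroup G := ⟨hs⟩
    by_contra h0
    have hc : ¬ ∀ a b : G, a * b = b * a := fun h => h0 (Group.isSolvable_of_comm h)
    obtain ⟨P⟩ : Nonempty (Sylow p G) := inferInstance
    have key : ∀ H : Subgroup G, (P : Subgroup G) ≤ H → ∃ j, H.index = q ^ j := fun H hH => by
      have h1 : Nat.Coprime H.index (p ^ a) := Nat.Coprime.pow_right _ (Nat.Coprime.symm
        (hp.coprime_iff_not_dvd.2 fun h => P.not_dvd_index (h.trans (Subgroup.index_dvd_of_le hH))))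
      obtain ⟨j, -, hj⟩ := (Nat.dvd_prime_pow hq).1
        (h1.dvd_of_dvd_mul_left ((hn ▸ H.index_dvd_card).trans hd))
      exact ⟨j, hj⟩
    rcases (P : Subgroup G).bot_or_nontrivial with h1 | h1
    · obtain ⟨j, hj⟩ := key ⊥ h1.le
      rw [Subgroup.index_bot] at hj
      have := (IsPGroup.of_card hj).isNilpotent
      exact h0 inferInstance
    · have := P.isPGroup'.center_nontrivial
      obtain ⟨g, hg⟩ := exists_ne (1 : Subgroup.center P)
      obtain ⟨j, hj⟩ := key (Subgroup.centralizer {(g.1 : G)}) fun x hx =>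
        Subgroup.mem_centralizer_singleton_iff.2
          (congrArg Subtype.val (Subgroup.mem_center_iff.1 g.2 ⟨x, hx⟩))
      exact no_class hc (fun h => hg (Subtype.ext (Subtype.ext h))) hq ((card_class _).trans hj)
  · push Not at hs
    obtain ⟨N, hN, h1, h2⟩ := hs
    have h3 := N.card_mul_index
    have h4 := (N.one_lt_card_iff_ne_bot).2 h1
    have h5 := Subgroup.one_lt_index_of_ne_top h2
    have := ih _ (by nlinarith) N rfl ((hn ▸ N.card_subgroup_dvd_card).trans hd)
    have := ih _ (by rw [← N.index_eq_card]; nlinarith) (G ⧸ N) rfl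
      ((hn ▸ N.card_quotient_dvd_card).trans hd)
    exact Group.isSolvable_of_ker_le_range N.subtype (QuotientGroup.mk' N) (by simp)

end Pool.Agent.P.MP_6d14ae_al.J
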