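import Pool.Agent.P.MP_6d14ae_al.J.Fib

/-! Only the identity fixes the complement of an orbit of size prime to the degree. -/

set_option autoImplicit false

namespace Pool.Agent.P.MP_6d14ae_al.J

open Finset MulAction Classical

variable {G X E : Type} [Group G] [Finite G] [Fintype X] [MulAction G X] [FaithfulSMul G X]
  [IsPretransitive G X] [AddCommGroup E] [DistribMulAction G E]

theorem core (κ : G ≃ E) (hκ : ∀ g h, κ (g * h) = κ g + g • κ h) (a : X → E)
    (ha : ∀ (g : G) x, a (g • x) = g • a x) (hg : AddSubgroup.closure (Set.range a) = ⊤)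
    (S : Finset X) (hk : (#S).Coprime (Fintype.card X)) (hT : Tr G S) (γ0 : G)
    (hγ0 : ∀ x ∉ S, γ0 • x = x) : γ0 = 1 := by
  by_contra h0
  have : Nontrivial G := ⟨γ0, 1, h0⟩
  obtain ⟨x1, hx0⟩ := not_forall.1 fun h : ∀ x : X, γ0 • x = x =>
    h0 (eq_of_smul_eq_smul (α := X) fun x => (h x).trans (one_smul _ x).symm)
  have hx1 : x1 ∈ S := not_not.1 fun h => hx0 (hγ0 _ h)
  have hS : ∀ x, x ∉ S ↔ ∀ γ : G, (∀ y ∉ S, γ • y = y) → γ • x = x := fun x =>
    ⟨fun h γ k => k x h, fun h k => by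
      obtain ⟨g, rfl, e⟩ := hT x1 hx1 x k
      have := h (g * γ0 * g⁻¹) fun y hy => by
        rw [mul_smul, mul_smul, hγ0 _ fun k => hy (by simpa using e _ k), smul_inv_smul]
      exact hx0 (by simpa [mul_smul] using this)⟩
  have := Finite.of_equiv _ κ
  obtain ⟨p, α, N, Z, hp, hN, hG, hZ, Z0, hZp, hZ1, hZ2⟩ := exists_Z κ hκ
  have := Fact.mk hp
  obtain ⟨Y, _, _, φ, φs, φe, φz⟩ := exists_quot (X := X) Z
  have ext : ∀ {V : Type} [AddCommGroup V] (f f' : E →+ V), (∀ x, f (a x) = f' (a x)) →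
      ∀ e, f e = f' e := fun f f' h => DFunLike.congr_fun
    (AddMonoidHom.eq_of_eqOn_dense hg (by rintro _ ⟨x, rfl⟩; exact h x))
  have comm : ∀ z ∈ Z, ∀ z' ∈ Z, z * z' = z' * z := fun z hz => hZ2 z (hZ1 z hz).1 (hZ1 z hz).2
  have φZ : ∀ z ∈ Z, ∀ x, φ (z • x) = φ x := fun z hz x => (φz _ _).2 ⟨z, hz, rfl⟩
  have φi : Inv G φ := fun g x y h => by rw [φe, φe, h]
  have mv : ∀ x : X, ∃ z ∈ Z, z • x ≠ x := fun x => by
    by_contra! h
    refine Z0 (eq_bot_iff.2 fun z hz => eq_of_smul_eq_smul (α := X) fun y => ?_)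
    obtain ⟨g, rfl⟩ := exists_smul_eq G x y
    rw [one_smul, ← mul_smul, show z * g = g * (g⁻¹ * z * g) by group, mul_smul,
      h _ (hZ.conj_mem' z hz g)]
  have pn : p ∣ Fintype.card X := by
    by_contra h
    obtain ⟨x, hx⟩ := hZp.nonempty_fixed_point_of_prime_not_dvd_card X
      (by rwa [Nat.card_eq_fintype_card])
    obtain ⟨z, hz, h⟩ := mv x
    exact h (hx ⟨z, hz⟩)
  have out : ∀ {W : Type} {f : X → W}, Inv G f → ¬Function.Injective f → ∀ x,
      ∃ y, f y = f x ∧ y ∉ S := fun hf hi x => by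
    by_contra! h
    exact hi (inj_of_sub hT hk hf h)
  have out1 := out φi fun h => let ⟨z, hz, k⟩ := mv x1; k (h (φZ z hz x1))
  have φγ : ∀ γ : G, (∀ y ∉ S, γ • y = y) → ∀ x, φ (γ • x) = φ x := fun γ hγ x => by
    obtain ⟨y, hy, k⟩ := out1 x
    rw [φe, ← hy, ← φe, hγ y k]
  have uniq : ∀ x ∈ S, ∀ y y', φ y = φ x → φ y' = φ x → y ∉ S → y' ∉ S → y' = y := by
    intro x hx y y' hy hy' l l'
    obtain ⟨z, hz, rfl⟩ := (φz _ _).1 (hy'.trans hy.symm)
    have h1 : ∀ w, φ w = φ x → (z • w ∉ S ↔ w ∉ S) := fun w hw => by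
      rw [hS, hS]
      refine forall₂_congr fun γ hγ => ?_
      have k := hγ _ l
      have k' := hγ _ l'
      obtain ⟨v, hv, rfl⟩ := (φz _ _).1 (hw.trans hy.symm)
      have c : ∀ v ∈ Z, γ • v • y = (γ * v * γ⁻¹) • y := fun v _ => by
        rw [mul_smul, mul_smul, inv_smul_eq_iff.2 k.symm]
      have h2 : γ • z • v • y = z • γ • v • y := by
        rw [← mul_smul z, c _ (mul_mem hz hv), c v hv,
          show γ * (z * v) * γ⁻¹ = γ * z * γ⁻¹ * (γ * v * γ⁻¹) by group,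
          comm _ (hZ.conj_mem z hz γ) _ (hZ.conj_mem v hv γ), mul_smul, ← c z hz, k', ← mul_smul,
          ← mul_smul, comm z hz _ (hZ.conj_mem v hv γ)]
      rw [h2, smul_left_cancel_iff]
    let τ : Equiv.Perm {w // w ∈ S.filter (φ · = φ x)} := (toPerm z).subtypePerm fun w => by
      simp only [mem_filter, toPerm_apply, φZ z hz]
      exact and_congr_left fun hw => not_iff_not.1 (h1 w hw)
    obtain ⟨i, hi⟩ := hZp ⟨z, hz⟩
    obtain ⟨w, hw⟩ := Equiv.Perm.exists_fixed_point_of_prime (p := p) (n := i) (σ := τ) (by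
      rw [Fintype.card_coe]
      exact fun h => hp.one_lt.ne' (Nat.eq_one_of_dvd_coprimes hk
        (h.trans (Dvd.intro_left _ (fib_mul hT φi hx).symm)) pn)) (by
      ext w
      rw [Equiv.Perm.subtypePerm_pow]
      show (toPermHom G X z ^ p ^ i) w = w
      rw [← map_pow, show z ^ p ^ i = 1 from congrArg Subtype.val hi, map_one]; rfl)
    obtain ⟨v, hv, e⟩ := (φz _ _).1 (hy.trans (mem_filter.1 w.2).2.symm)
    rw [← e, ← mul_smul, comm z hz v hv, mul_smul, show z • w.1 = w.1 from congrArg Subtype.val hw]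
  obtain ⟨V, _, _, q, qe, ⟨z0, hz0, e0, he0⟩, hQ⟩ := exists_V (E := E) Z hp hZp
    (fun z hz => (hZ1 z hz).2) (by
      by_contra! h
      obtain ⟨y, hy, k⟩ := out1 x1
      obtain ⟨z, hz, k'⟩ := mv y
      refine k' (uniq x1 hx1 y _ hy ((φZ z hz y).trans hy) k ((hS _).2 fun γ hγ => ?_))
      have h1 : ∀ e : E, γ • e = e := ext (DistribSMul.toAddMonoidHom E γ) (AddMonoidHom.id E)
        fun x => by
          obtain ⟨z, hz, k⟩ := (φz _ _).1 (φγ γ hγ x)
          show γ • a x = a x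
          rw [← ha, ← k, ha, h z hz]
      rw [← mul_smul, κ.injective (show κ (γ * z) = κ (z * γ) by
        rw [hκ, hκ, h1, h z hz, add_comm]), mul_smul, hγ y k])
  have be : ∀ (g : G) x, q (a (g • x)) = g • q (a x) := fun g x => by rw [ha, qe]
  have inj : ∀ x y, φ x = φ y → q (a x) = q (a y) → x = y := by
    by_contra! h
    obtain ⟨x, y, h1, h2, h3⟩ := h
    have h4 := out (f := fun x => (q (a x), φ x))
      (fun g x y h => Prod.ext (by simp only [be, (Prod.ext_iff.1 h).1]; grind)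
        (φi g x y (Prod.ext_iff.1 h).2)) fun h => h3 (h (Prod.ext h2 h1))
    have h5 : ∀ z ∈ Z, z • q (a x1) = q (a x1) := fun z hz => by
      obtain ⟨y, hy, k⟩ := h4 x1
      obtain ⟨y', hy', k'⟩ := h4 (z • x1)
      have := uniq x1 hx1 y y' (Prod.ext_iff.1 hy).2 ((Prod.ext_iff.1 hy').2.trans (φZ z hz x1)) k k'
      rw [← be]
      exact (Prod.ext_iff.1 hy').1.symm.trans (this ▸ (Prod.ext_iff.1 hy).1)
    refine he0 (ext ((DistribSMul.toAddMonoidHom V z0).comp q) q (fun x => ?_) e0)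
    obtain ⟨g, rfl⟩ := exists_smul_eq G x1 x
    show z0 • q (a (g • x1)) = _
    rw [be, ← mul_smul, show z0 * g = g * (g⁻¹ * z0 * g) by group, mul_smul,
      h5 _ (hZ.conj_mem' z0 hz0 g)]
  choose o ho using φs
  have base : ∀ z ∈ Z, ∀ x y, φ x = φ y → z • q (a x) - q (a x) = z • q (a y) - q (a y) := by
    intro z hz x y h
    obtain ⟨v, hv, rfl⟩ := (φz _ _).1 h
    have := hQ v hv z hz (a y)
    rw [smul_sub, sub_eq_sub_iff_sub_eq_sub] at this
    rw [be, this]
  let W : Y → AddSubgroup V := fun B =>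
    { carrier := {v | ∃ z ∈ Z, v = z • q (a (o B)) - q (a (o B))}
      zero_mem' := ⟨1, one_mem _, by simp⟩
      add_mem' := by
        rintro _ _ ⟨z, hz, rfl⟩ ⟨z', hz', rfl⟩
        refine ⟨z * z', mul_mem hz hz', ?_⟩
        rw [← base z hz _ _ (φZ z' hz' (o B)), be, mul_smul]; abel
      neg_mem' := by
        rintro _ ⟨z, hz, rfl⟩
        refine ⟨z⁻¹, inv_mem hz, ?_⟩
        rw [← base z⁻¹ (inv_mem hz) _ _ (φZ z hz (o B)), be, inv_smul_smul]; abel }
  have : IsPretransitive G Y := ⟨fun B B' => (exists_smul_eq G (o B) (o B')).imp fun g h => by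
    rw [← ho B, ← φe, h, ho]⟩
  have sep : Function.Injective fun (B : Y) (g : G) => g • B ∈ S.image φ := by
    refine inj_of_sub (G := G) (S := S.image φ) (x := φ x1) ?_ ?_ (fun g B B' h => funext fun g' => by
      rw [← mul_smul, ← mul_smul]; exact congrFun h _) fun B h => by
        simpa only [one_smul] using (congrFun h 1).mpr (by simpa using ⟨x1, hx1, rfl⟩)
    · intro B hB B' hB'
      obtain ⟨u, hu, rfl⟩ := mem_image.1 hB
      obtain ⟨v, hv, rfl⟩ := mem_image.1 hB'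
      obtain ⟨h, rfl, h2⟩ := hT u hu v hv
      refine ⟨h, (φe h u).symm, fun C hC => ?_⟩
      obtain ⟨w, hw, rfl⟩ := mem_image.1 hC
      exact φe h w ▸ mem_image_of_mem φ (h2 w hw)
    · refine (hk.coprime_dvd_left (Dvd.intro _ (fib_mul hT φi hx1).symm)).coprime_dvd_right ?_
      have := fib_mul tr_univ φi (mem_univ x1)
      rw [image_univ_of_surjective fun B => ⟨_, ho B⟩] at this
      exact Dvd.intro _ this.symm
  have ind := fun w => indep W (fun (g : G) (γ : {γ : G // ∀ y ∉ S, γ • y = y}) =>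
    DistribSMul.toAddMonoidHom V (g⁻¹ * γ.1 * g) - .id V) (fun g B => g • B ∈ S.image φ) (by
      rintro g ⟨γ, hγ⟩ B _ ⟨z, hz, rfl⟩
      refine sub_mem ⟨_, hZ.conj_mem z hz (g⁻¹ * γ * g), ?_⟩ ⟨z, hz, rfl⟩
      rw [← base _ (hZ.conj_mem z hz _) ((g⁻¹ * γ * g) • o B) _ (by
        rw [mul_smul, mul_smul, φe, φγ γ hγ, φe, inv_smul_smul]), be, mul_smul _ _⁻¹,
        inv_smul_smul, mul_smul _ z, ← smul_sub]
      rfl) (by
      rintro g ⟨γ, hγ⟩ B hB _ ⟨z, hz, rfl⟩
      have h1 : ∀ x, φ x = B → (g⁻¹ * γ * g) • q (a x) = q (a x) := fun x hx => by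
        rw [← be, mul_smul, mul_smul, hγ _ fun h => hB (by
          rw [← hx, ← φe]; exact mem_image_of_mem φ h), inv_smul_smul]
      refine sub_eq_zero.2 (show (g⁻¹ * γ * g) • (_ : V) = _ from ?_)
      rw [← be, smul_sub, h1 _ (ho B), h1 _ ((φZ z hz _).trans (ho B))]; rfl) (by
      rintro g B hB _ ⟨z, hz, rfl⟩ h
      obtain ⟨x, hx, e⟩ := mem_image.1 hB
      obtain ⟨y, hy, k⟩ := out1 x
      have h1 : φ (g⁻¹ • y) = φ (o B) := by rw [φe, hy, e, inv_smul_smul, ho]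
      rw [← base z hz _ _ h1] at h ⊢
      have h5 := uniq x hx y (g • z • g⁻¹ • y) hy (by rw [φe, φZ z hz, ← φe, smul_inv_smul, hy]) k
        ((hS _).2 fun γ hγ => by
          have h2 : (g⁻¹ * γ * g) • g⁻¹ • y = g⁻¹ • y := by
            rw [mul_smul, smul_inv_smul, mul_smul, hγ y k]
          have h3 : (g⁻¹ * γ * g) • (z • q (a (g⁻¹ • y)) - q (a (g⁻¹ • y))) = _ :=
            sub_eq_zero.1 (h ⟨γ, hγ⟩)
          rw [smul_sub, ← be (g⁻¹ * γ * g) (g⁻¹ • y), h2, AddMonoidHom.id_apply, sub_left_inj,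
            ← be, ← be] at h3
          have h4 := inj _ _ (by rw [mul_smul, mul_smul, φe, φγ γ hγ, φe, inv_smul_smul]) h3
          rwa [mul_smul, mul_smul, inv_smul_eq_iff] at h4)
      rw [← be, eq_inv_smul_iff.2 h5, sub_self]) (fun B B' h => sep (funext fun g => propext (h g)))
    _ w rfl
  have hc := Nat.Coprime.pow_left α (hp.coprime_iff_not_dvd.2 hN)
  have hP := (card_sub κ hκ hc hG).1
  have : Nonempty Y := ⟨φ x1⟩
  refine (upper φe ho _ hp hP fun g hg h => eq_of_smul_eq_smul (α := X) fun x => ?_).not_ge ?_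
  · have h1 : ∀ x, ∃ z ∈ Z, z • o (φ x) = x := fun x => (φz _ _).1 (ho _).symm
    have h2 := hZ2 g hg (ext ((DistribSMul.toAddMonoidHom E g).comp (nsmulAddMonoidHom (p ^ α)))
      (nsmulAddMonoidHom (p ^ α)) fun x => by
        obtain ⟨z, hz, k⟩ := h1 x
        show g • p ^ α • a x = p ^ α • a x
        rw [← k, ha, smul_comm _ z, (hZ1 z hz).2, ← smul_comm _ g, ← ha, h])
    obtain ⟨z, hz, k⟩ := h1 x
    rw [one_smul, ← k, ← mul_smul, h2 z hz, mul_smul, h]
  have t1 : ∀ z ∈ Z, ∀ e : E, p ^ α • (z • e - e) = 0 := fun z hz e => by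
    rw [smul_sub, smul_comm, (hZ1 z hz).2, sub_self]
  have hE : Nat.card E = p ^ α * N := (Nat.card_congr κ).symm.trans hG
  have uz : ∀ (u : {u : Y → X // ∀ B, φ (u B) = B}) B, ∃ z ∈ Z, z • o B = u.1 B := fun u B =>
    (φz _ _).1 ((u.2 B).trans (ho B).symm)
  have uW : ∀ (u : {u : Y → X // ∀ B, φ (u B) = B}) B, q (a (u.1 B)) - q (a (o B)) ∈ W B :=
    fun u B => (uz u B).imp fun z hz => ⟨hz.1, by rw [← hz.2, be]⟩
  rw [← card_tor hc hE, ← Fintype.card_fin p, ← Fintype.card_fun, ← Nat.card_eq_fintype_card,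
    ← Nat.card_prod]
  simp only [Fintype.card_fin]
  refine Nat.card_le_card_of_injective (fun r => ⟨∑ B, (a (r.1.1 B) - a (o B) +
    (r.2 B).1 • N • a (o B)), sum_mem fun B _ => add_mem ?_ (nsmul_mem ?_ _)⟩) ?_
  · obtain ⟨z, hz, k⟩ := uz r.1 B
    rw [← k, ha]
    exact t1 z hz _
  · rw [mem_tor, ← mul_nsmul', ← hE, card_nsmul_eq_zero']
  rintro ⟨u, j⟩ ⟨u', j'⟩ h
  have h1 : ∑ B, ((q (a (u.1 B)) - q (a (o B)) - (q (a (u'.1 B)) - q (a (o B)))) +
      ((((j B).1 : ℤ) - (j' B).1) * N) • q (a (o B))) = 0 := by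
    have h2 := congrArg q (sub_eq_zero.2 (congrArg Subtype.val h))
    rw [map_zero, ← sum_sub_distrib, map_sum] at h2
    refine (sum_congr rfl fun B _ => ?_).trans h2
    simp only [map_sub, map_add, map_nsmul]
    module
  have h2 : j = j' := funext fun B => by
    obtain ⟨z, hz, k⟩ := mv (o B)
    have h3 := ind (fun B => ((((j B).1 : ℤ) - (j' B).1) * N) • (z • q (a (o B)) - q (a (o B))))
      (fun B => zsmul_mem (show _ ∈ W B from ⟨z, hz, rfl⟩) _) (by
        have h4 := congrArg (DistribSMul.toAddMonoidHom V z - AddMonoidHom.id V) h1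
        rw [map_zero, map_sum] at h4
        refine (sum_congr rfl fun B _ => ?_).trans h4
        obtain ⟨v, hv, e⟩ := sub_mem (uW u B) (uW u' B)
        rw [map_add, map_zsmul, e]
        exact ((congrArg (· + _) (sub_eq_zero.2 (hQ v hv z hz _))).trans (zero_add _)).symm) B
    have h4 := (prime_dvd (a := α) hp (w := z • q (a (o B)) - q (a (o B))) (fun h => k
      (inj _ _ (φZ z hz _) (by rw [be]; exact sub_eq_zero.1 h))) (by
        rw [← qe, ← map_sub, ← map_nsmul, t1 z hz, map_zero]))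
    have h5 := (Int.natCast_dvd_natCast.2 h4).trans (addOrderOf_dvd_iff_zsmul_eq_zero.2 h3)
    have h6 := ((Nat.prime_iff_prime_int.1 hp).dvd_or_dvd h5).resolve_right
      fun h => hN (Int.natCast_dvd_natCast.1 h)
    have h7 := Int.eq_zero_of_abs_lt_dvd h6 (by
      have := (j B).2; have := (j' B).2; rw [abs_lt]; omega)
    exact Fin.ext (by omega)
  subst h2
  simp only [sub_self, zero_mul, zero_smul, add_zero] at h1
  refine Prod.ext (Subtype.ext (funext fun B => inj _ _ ((u.2 B).trans (u'.2 B).symm) ?_)) rfl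
  simpa [sub_eq_zero] using ind _ (fun B => sub_mem (uW u B) (uW u' B)) h1 B

end Pool.Agent.P.MP_6d14ae_al.J
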