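import Pool.Agent.P.MP_6d14ae_al.J.Brace

/-! Fibres of invariant maps, quotients, independence and the two counts. -/

set_option autoImplicit false

namespace Pool.Agent.P.MP_6d14ae_al.J

open Finset MulAction Classical

section
variable (G : Type) {X W : Type} [Group G] [MulAction G X]

/-- the set stabiliser of `S` is transitive on `S` -/
def Tr (S : Finset X) : Prop := ∀ u ∈ S, ∀ v ∈ S, ∃ h : G, h • u = v ∧ ∀ w ∈ S, h • w ∈ S

/-- the fibres of `f` are permuted -/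
def Inv (f : X → W) : Prop := ∀ (g : G) x y, f x = f y → f (g • x) = f (g • y)

variable {G}

theorem fib_le {S : Finset X} (hS : Tr G S) {f : X → W} (hf : Inv G f) {u v : X} (hu : u ∈ S)
    (hv : v ∈ S) : #(S.filter (f · = f u)) ≤ #(S.filter (f · = f v)) := by
  obtain ⟨h, rfl, h2⟩ := hS u hu v hv
  exact card_le_card_of_injOn (h • ·) (fun w hw => mem_coe.2 (mem_filter.2
    ⟨h2 w (mem_filter.1 hw).1, hf h _ _ (mem_filter.1 hw).2⟩)) (MulAction.injective h).injOn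

theorem fib_mul {S : Finset X} (hS : Tr G S) {f : X → W} (hf : Inv G f) {u : X} (hu : u ∈ S) :
    #S = #(S.image f) * #(S.filter (f · = f u)) := by
  rw [card_eq_sum_card_image f S, ← smul_eq_mul, ← sum_const]
  refine sum_congr rfl fun b hb => ?_
  obtain ⟨v, hv, rfl⟩ := mem_image.1 hb
  exact le_antisymm (fib_le hS hf hv hu) (fib_le hS hf hu hv)

theorem tr_univ [Fintype X] [IsPretransitive G X] : Tr G (univ : Finset X) := fun u _ v _ =>
  (exists_smul_eq G u v).imp fun _ h => ⟨h, fun _ _ => mem_univ _⟩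

theorem inj_of_sub [Fintype X] [IsPretransitive G X] {S : Finset X} (hS : Tr G S)
    (hk : (#S).Coprime (Fintype.card X)) {f : X → W} (hf : Inv G f) {x : X}
    (hx : ∀ y, f y = f x → y ∈ S) : Function.Injective f := by
  have h1 : S.filter (f · = f x) = univ.filter (f · = f x) := by
    ext y; simpa using hx y
  have h2 : #(univ.filter (f · = f x)) = 1 := Nat.eq_one_of_dvd_coprimes hk
    (h1 ▸ Dvd.intro_left _ (fib_mul hS hf (hx x rfl)).symm)
    (Dvd.intro_left _ (fib_mul tr_univ hf (mem_univ x)).symm)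
  intro u v h
  exact card_le_one.1 (h2 ▸ fib_le tr_univ hf (mem_univ v) (mem_univ x)) u (by simpa using h) v
    (by simp)

theorem exists_quot [Finite X] (Z : Subgroup G) [hZ : Z.Normal] :
    ∃ (Y : Type) (_ : Fintype Y) (_ : MulAction G Y) (φ : X → Y), Function.Surjective φ ∧
      (∀ (g : G) x, φ (g • x) = g • φ x) ∧ ∀ x y, φ x = φ y ↔ ∃ z ∈ Z, z • y = x := by
  let _ : MulAction G (orbitRel.Quotient Z X) :=
    { smul := fun g => Quotient.map' (g • ·) fun x y ⟨z, hz⟩ =>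
        ⟨⟨g * z * g⁻¹, hZ.conj_mem _ z.2 g⟩, by
          show (g * z * g⁻¹) • g • y = g • x
          rw [mul_smul, inv_smul_smul, mul_smul, ← hz]; rfl⟩
      one_smul := fun y => Quotient.inductionOn' y fun x => congrArg Quotient.mk'' (one_smul G x)
      mul_smul := fun g h y => Quotient.inductionOn' y fun x =>
        congrArg Quotient.mk'' (mul_smul g h x) }
  exact ⟨orbitRel.Quotient Z X, Fintype.ofFinite _, inferInstance, Quotient.mk'',
    Quotient.mk''_surjective, fun _ _ => rfl, fun x y => Quotient.eq''.trans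
      ⟨fun ⟨z, hz⟩ => ⟨z, z.2, hz⟩, fun ⟨z, h, hz⟩ => ⟨⟨z, h⟩, hz⟩⟩⟩

theorem upper {Y : Type} [Finite G] [Finite X] [Fintype Y] [Nonempty Y] [MulAction G Y]
    {φ : X → Y} (φe : ∀ (g : G) x, φ (g • x) = g • φ x) {o : Y → X} (ho : ∀ B, φ (o B) = B)
    (P : Subgroup G) {p a : ℕ} (hp : p.Prime) (hP : Nat.card P = p ^ a)
    (hc : ∀ g ∈ P, (∀ B, g • o B = o B) → g = 1) :
    p ^ a < Nat.card {u : Y → X // ∀ B, φ (u B) = B} * p ^ Fintype.card Y := by
  have := Fact.mk hp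
  let ρ := toPermHom P Y
  have h1 := ρ.ker.card_mul_index
  obtain ⟨v, -, hv⟩ := (Nat.dvd_prime_pow hp).1 (hP ▸ ρ.ker.index_dvd_card)
  have h2 : p ^ v ∣ (Fintype.card Y).factorial := by
    rw [← hv, Subgroup.index_ker, ← Fintype.card_perm, ← Nat.card_eq_fintype_card]
    exact ρ.range.card_subgroup_dvd_card
  have h3 := ((padicValNat_dvd_iff_le (Nat.factorial_ne_zero _)).1 h2).trans_lt
    (padicValNat_factorial_lt_of_ne_zero p Fintype.card_ne_zero)
  have h4 : Nat.card ρ.ker ≤ Nat.card {u : Y → X // ∀ B, φ (u B) = B} := by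
    refine Nat.card_le_card_of_injective (fun g => ⟨fun B => g.1.1 • o B, fun B => by
      rw [φe, ho]; exact DFunLike.congr_fun g.2 B⟩) fun g g' h => ?_
    refine Subtype.ext (Subtype.ext (eq_of_inv_mul_eq_one (hc _ (g.1⁻¹ * g'.1).2 fun B => ?_)))
    rw [mul_smul, inv_smul_eq_iff]
    exact (congrFun (congrArg Subtype.val h) B).symm
  rw [← hP, ← h1, hv]
  exact Nat.mul_lt_mul_of_le_of_lt h4 (Nat.pow_lt_pow_right hp.one_lt h3)
    (Nat.card_pos.trans_le h4)

end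

theorem indep {Y V I J : Type} [Fintype Y] [AddCommGroup V] (W : Y → AddSubgroup V)
    (ψ : I → J → V →+ V) (R : I → Y → Prop) (h1 : ∀ i j B, ∀ w ∈ W B, ψ i j w ∈ W B)
    (h2 : ∀ i j B, ¬R i B → ∀ w ∈ W B, ψ i j w = 0)
    (h3 : ∀ i B, R i B → ∀ w ∈ W B, (∀ j, ψ i j w = 0) → w = 0)
    (sep : ∀ B B', (∀ i, R i B ↔ R i B') → B = B') (n : ℕ) :
    ∀ w : Y → V, #(univ.filter (w · ≠ 0)) = n → (∀ B, w B ∈ W B) → ∑ B, w B = 0 →
      ∀ B, w B = 0 := by
  induction n using Nat.strong_induction_on with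
  | _ n ih =>
  intro w hn hw hs B
  by_contra h0
  have key : ∀ i C C', w C ≠ 0 → w C' ≠ 0 → R i C → R i C' := fun i C C' hC hC' r => by
    by_contra r'
    refine hC (h3 i C r _ (hw C) fun j => ih _ ?_ (fun B => ψ i j (w B)) rfl
      (fun B => h1 i j B _ (hw B)) (by rw [← map_sum, hs, map_zero]) C)
    refine hn ▸ card_lt_card ⟨fun D hD => ?_, fun h => ?_⟩
    · refine mem_filter.2 ⟨mem_univ _, fun e => (mem_filter.1 hD).2 ?_⟩
      rw [e, map_zero]
    · exact (mem_filter.1 (h (mem_filter.2 ⟨mem_univ C', hC'⟩))).2 (h2 i j C' r' _ (hw C'))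
  rw [sum_eq_single B (fun C _ hC => by
    by_contra h
    exact hC (sep _ _ fun i => ⟨key i _ _ h h0, key i _ _ h0 h⟩)) (by simp)] at hs
  exact h0 hs

section
variable {G E : Type} [Group G] [AddCommGroup E] [DistribMulAction G E]

theorem prime_dvd {V : Type} [AddCommGroup V] {p a : ℕ} (hp : p.Prime) {w : V} (h0 : w ≠ 0)
    (h : p ^ a • w = 0) : p ∣ addOrderOf w := by
  obtain ⟨i, -, hi⟩ := (Nat.dvd_prime_pow hp).1 (addOrderOf_dvd_of_nsmul_eq_zero h)
  refine hi ▸ dvd_pow_self p fun e => h0 ?_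
  rwa [e, pow_zero, AddMonoid.addOrderOf_eq_one_iff] at hi

theorem exists_V [Finite E] (Z : Subgroup G) [hn : Z.Normal] {p a : ℕ} (hp : p.Prime)
    (hZ : IsPGroup p Z) (hN : ∀ z ∈ Z, ∀ e : E, z • p ^ a • e = p ^ a • e)
    (h0 : ∃ z ∈ Z, ∃ e : E, z • e ≠ e) :
    ∃ (V : Type) (_ : AddCommGroup V) (_ : DistribMulAction G V) (q : E →+ V),
      (∀ (g : G) e, q (g • e) = g • q e) ∧ (∃ z ∈ Z, ∃ e, z • q e ≠ q e) ∧
      ∀ z ∈ Z, ∀ z' ∈ Z, ∀ e, z' • (z • q e - q e) = z • q e - q e := by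
  have := Fact.mk hp
  obtain ⟨U, ⟨hU, z, hz, e, he⟩, hm⟩ := wellFounded_gt.has_min
    {U : AddSubgroup E | (∀ g : G, ∀ e ∈ U, g • e ∈ U) ∧ ∃ z ∈ Z, ∃ e, z • e - e ∉ U}
    ⟨⊥, by simp, by simpa [sub_eq_zero] using h0⟩
  let _ : DistribMulAction G (E ⧸ U) :=
    { smul := fun g => QuotientAddGroup.map U U (DistribSMul.toAddMonoidHom E g) (hU g)
      one_smul := fun y => QuotientAddGroup.induction_on y fun x =>
        congrArg QuotientAddGroup.mk (one_smul G x)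
      mul_smul := fun g h y => QuotientAddGroup.induction_on y fun x =>
        congrArg QuotientAddGroup.mk (mul_smul g h x)
      smul_zero := fun g =>
        map_zero (QuotientAddGroup.map U U (DistribSMul.toAddMonoidHom E g) (hU g))
      smul_add := fun g =>
        map_add (QuotientAddGroup.map U U (DistribSMul.toAddMonoidHom E g) (hU g)) }
  let q := QuotientAddGroup.mk' U
  have hq : ∀ (g : G) e, q (g • e) = g • q e := fun _ _ => rfl
  have h1 : q (z • e - e) ≠ 0 := fun h => he ((QuotientAddGroup.eq_zero_iff _).1 h)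
  obtain ⟨v, hv, v0⟩ := hZ.exists_fixed_point_of_prime_dvd_card_of_fixed_point (E ⧸ U)
    ((prime_dvd (a := a) hp h1 (by rw [← map_nsmul, smul_sub, smul_comm, hN z hz, sub_self,
      map_zero])).trans (addOrderOf_dvd_natCard _)) (a := 0) fun z => smul_zero z
  obtain ⟨e0, rfl⟩ := QuotientAddGroup.mk'_surjective U v
  let F : AddSubgroup E :=
    { carrier := {e | ∀ z ∈ Z, z • q e = q e}
      zero_mem' := fun z _ => by rw [map_zero, smul_zero]
      add_mem' := fun ha hb z hz => by rw [map_add, smul_add, ha z hz, hb z hz]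
      neg_mem' := fun ha z hz => by rw [map_neg, smul_neg, ha z hz] }
  refine ⟨E ⧸ U, inferInstance, inferInstance, q, hq, ⟨z, hz, e, by
    rwa [map_sub, hq, sub_ne_zero] at h1⟩, fun y hy y' hy' e' => ?_⟩
  by_contra h
  refine hm F ⟨fun g e he y hy => ?_, y, hy, e', fun k => h (by simpa [hq] using k y' hy')⟩
    (lt_of_le_of_ne (fun e he y _ => ?_) fun h => v0 ?_)
  · rw [hq, ← mul_smul, show y * g = g * (g⁻¹ * y * g) by group, mul_smul,
      he _ (hn.conj_mem' y hy g)]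
  · rw [show q e = 0 from (QuotientAddGroup.eq_zero_iff _).2 he, smul_zero]
  · exact ((QuotientAddGroup.eq_zero_iff _).2 (h ▸ fun y hy => hv ⟨y, hy⟩ : e0 ∈ U)).symm

theorem exists_Z [Finite G] [Nontrivial G] (κ : G ≃ E) (hκ : ∀ g h, κ (g * h) = κ g + g • κ h) :
    ∃ (p a N : ℕ) (Z : Subgroup G), p.Prime ∧ ¬p ∣ N ∧ Nat.card G = p ^ a * N ∧ Z.Normal ∧ Z ≠ ⊥ ∧
      IsPGroup p Z ∧ (∀ z ∈ Z, z ∈ sub κ hκ (p ^ a) ∧ ∀ e : E, z • p ^ a • e = p ^ a • e) ∧
      ∀ g ∈ sub κ hκ (p ^ a), (∀ e : E, g • p ^ a • e = p ^ a • e) → ∀ z ∈ Z, g * z = z * g := by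
  have := solv κ hκ
  obtain ⟨p, hp, L, hL, L0, hLp⟩ := exists_pnormal G
  have := Fact.mk hp
  obtain ⟨a, N, h1, h2⟩ :=
    Nat.exists_eq_pow_mul_and_not_dvd (Nat.card_pos (α := G)).ne' p hp.one_lt.ne'
  have hc := Nat.Coprime.pow_left a (hp.coprime_iff_not_dvd.2 h1)
  obtain ⟨h3, h4⟩ := card_sub κ hκ hc h2
  have h5 := IsPGroup.of_card h3
  have h6 : L ≤ sub κ hκ (p ^ a) := hLp.le_sylow_of_normal (h5.toSylow (h4.symm ▸ h1))
  let M : Subgroup G :=
    { carrier := {g | g ∈ sub κ hκ (p ^ a) ∧ ∀ e : E, g • p ^ a • e = p ^ a • e}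
      one_mem' := ⟨one_mem _, fun e => one_smul _ _⟩
      mul_mem' := fun ha hb => ⟨mul_mem ha.1 hb.1, fun e => by rw [mul_smul, hb.2, ha.2]⟩
      inv_mem' := fun ha => ⟨inv_mem ha.1, fun e => by rw [inv_smul_eq_iff, ha.2]⟩ }
  have : M.Normal := ⟨fun g hg y => ⟨by
    show p ^ a • κ (y * g * y⁻¹) = 0
    have h7 := hκ y y⁻¹
    rw [mul_inv_cancel, k_one κ hκ] at h7
    rw [hκ, hκ, smul_add, smul_add, smul_comm _ y, mem_tor.1 hg.1, smul_zero, add_zero,
      smul_comm _ (y * g), mul_smul, hg.2, ← smul_comm _ y, ← smul_add, ← h7, smul_zero], fun e => by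
    rw [mul_smul, mul_smul, ← smul_comm _ y⁻¹, hg.2, smul_comm _ y⁻¹, smul_inv_smul]⟩⟩
  have h7 : L ≤ M := fun z hz => ⟨h6 hz, fun e => by
    obtain ⟨h, hh⟩ := κ.surjective (p ^ a • e)
    have h8 : κ h ∈ tor E N := by
      rw [hh, mem_tor, ← mul_nsmul, ← h2, Nat.card_congr κ, card_nsmul_eq_zero']
    have h9 := hκ h (h⁻¹ * z * h)
    rw [show h * (h⁻¹ * z * h) = z * h by group, hκ] at h9
    rw [← hh, ← sub_eq_zero]
    refine tor_inf hc ?_ (sub_mem (tor_smul z h8) h8)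
    rw [show z • κ h - κ h = h • κ (h⁻¹ * z * h) - κ z by
      rw [sub_eq_sub_iff_add_eq_add, add_comm, h9, add_comm]]
    exact sub_mem (tor_smul h (h6 (hL.conj_mem' z hz h))) (h6 hz)⟩
  have h8 : IsPGroup p M := h5.to_le fun g hg => hg.1
  have : Nontrivial M := M.bot_or_nontrivial.resolve_left fun h => L0 (eq_bot_iff.2 (h ▸ h7))
  have := h8.center_nontrivial
  obtain ⟨g, hg⟩ := exists_ne (1 : Subgroup.center M)
  refine ⟨p, a, N, M ⊓ Subgroup.centralizer M, hp, h1, h2, inferInstance, fun h => ?_,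
    h8.to_le inf_le_left, fun z hz => hz.1, fun g hg hg' z hz => hz.2 g ⟨hg, hg'⟩⟩
  have h9 : g.1.1 ∈ M ⊓ Subgroup.centralizer M := ⟨g.1.2, fun x hx =>
    congrArg Subtype.val (Subgroup.mem_center_iff.1 g.2 ⟨x, hx⟩)⟩
  exact hg (Subtype.ext (Subtype.ext (Subgroup.mem_bot.1 (h ▸ h9))))

end

end Pool.Agent.P.MP_6d14ae_al.J
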