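import Pool.Agent.P.MP_6d14ae_al.J.Fib

/-! A subgroup of order prime to the degree fixes a point; the normaliser of the Hall subgroup. -/

set_option autoImplicit false

namespace Pool.Agent.P.MP_6d14ae_al.J

open Finset MulAction Classical

theorem avg {G X : Type} [Group G] [Finite G] [MulAction G X] (M H : Subgroup G) [hM : M.Normal]
    (hc : ∀ a b : M, a * b = b * a) (h : (Nat.card M).Coprime (Nat.card H)) (b : X)
    (hb : ∀ g : H, ∃ m : M, m • b = g.1 • b) : ∃ x : X, ∀ g ∈ H, g • x = x := by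
  let _ : CommGroup M := { (inferInstance : Group M) with mul_comm := hc }
  let _ := Fintype.ofFinite H
  choose m hm using hb
  obtain ⟨δ, hδ⟩ := (powCoprime h).surjective (∏ k, m k)
  rw [powCoprime_apply] at hδ
  refine ⟨δ • b, fun g hg => ?_⟩
  let c : M →* M := (MulAut.conjNormal g).toMonoidHom
  have h1 : ∀ (u : M) (x : X), c u • g • x = g • u • x := fun u x => by
    show (g * u * g⁻¹) • g • x = g • u.1 • x
    rw [mul_smul, inv_smul_smul, mul_smul]
  have h2 : (δ⁻¹ * (c δ * m ⟨g, hg⟩)) ^ Nat.card H ∈ stabilizer M b := by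
    rw [mul_pow, mul_pow, inv_pow, ← map_pow, hδ, map_prod, Nat.card_eq_fintype_card, ← card_univ,
      ← prod_const, ← prod_mul_distrib, ← Equiv.prod_comp (Equiv.mulLeft (⟨g, hg⟩ : H)) m,
      ← prod_inv_distrib, ← prod_mul_distrib]
    refine prod_mem fun k _ => ?_
    rw [mem_stabilizer_iff, mul_smul, inv_smul_eq_iff, mul_smul, hm, hm, h1, hm]
    exact (mul_smul g k.1 b).symm
  obtain ⟨r, hr⟩ := exists_pow_eq_self_of_coprime
    (h.symm.coprime_dvd_right (orderOf_dvd_natCard (δ⁻¹ * (c δ * m ⟨g, hg⟩))))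
  have h3 := hr ▸ pow_mem h2 r
  rwa [mem_stabilizer_iff, mul_smul, inv_smul_eq_iff, mul_smul, hm, h1] at h3

theorem fix (n : ℕ) : ∀ (G X : Type) [Group G] [Finite G] [Group.IsSolvable G] [Fintype X]
    [Nonempty X] [MulAction G X] [FaithfulSMul G X] [IsPretransitive G X] (H : Subgroup G),
    Fintype.card X = n → (Nat.card H).Coprime n → ∃ x : X, ∀ g ∈ H, g • x = x := by
  induction n using Nat.strong_induction_on with
  | _ n ih =>
  intro G X _ _ _ _ ⟨x0⟩ _ _ _ H hn hH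
  rcases subsingleton_or_nontrivial G with h | h
  · exact ⟨x0, fun g _ => by rw [Subsingleton.elim g 1, one_smul]⟩
  obtain ⟨p, hp, L, hL, L0, hLp⟩ := exists_pnormal G
  have := Fact.mk hp
  have : Nontrivial L := L.bot_or_nontrivial.resolve_left L0
  have := hLp.center_nontrivial
  obtain ⟨z, hz⟩ := exists_ne (1 : Subgroup.center L)
  let M := L ⊓ Subgroup.centralizer L
  have zM : z.1.1 ∈ M := ⟨z.1.2, fun x hx =>
    congrArg Subtype.val (Subgroup.mem_center_iff.1 z.2 ⟨x, hx⟩)⟩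
  have hM : M.Normal := inferInstance
  have hMp : IsPGroup p M := hLp.to_le inf_le_left
  obtain ⟨x1, hx1⟩ := not_forall.1 fun h : ∀ x : X, z.1.1 • x = x =>
    hz (Subtype.ext (Subtype.ext (eq_of_smul_eq_smul (α := X) fun x =>
      (h x).trans (one_smul _ x).symm)))
  have pn : p ∣ n := by
    by_contra h
    obtain ⟨x, hx⟩ := hMp.nonempty_fixed_point_of_prime_not_dvd_card X
      (by rwa [Nat.card_eq_fintype_card, hn])
    obtain ⟨g, rfl⟩ := exists_smul_eq G x x1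
    refine hx1 ?_
    rw [← mul_smul, show z.1.1 * g = g * (g⁻¹ * z.1.1 * g) by group, mul_smul]
    exact congrArg _ (hx ⟨_, hM.conj_mem' _ zM g⟩)
  obtain ⟨Y, _, _, φ, φs, φe, φz⟩ := exists_quot (X := X) M
  have φi : Inv G φ := fun g x y h => by rw [φe, φe, h]
  have h1 := fib_mul tr_univ φi (mem_univ x1)
  rw [image_univ_of_surjective φs, card_univ, card_univ, hn] at h1
  let ρ := toPermHom G Y
  have : Group.IsSolvable ρ.range := Group.isSolvable_of_surjective ρ.rangeRestrict_surjective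
  have : Nonempty Y := ⟨φ x0⟩
  have : IsPretransitive ρ.range Y := ⟨fun B B' => by
    obtain ⟨x, rfl⟩ := φs B
    obtain ⟨y, rfl⟩ := φs B'
    obtain ⟨g, rfl⟩ := exists_smul_eq G x y
    exact ⟨ρ.rangeRestrict g, (φe g x).symm⟩⟩
  obtain ⟨B, hB⟩ := ih _ (hn ▸ Fintype.card_lt_of_surjective_not_injective φ φs fun h =>
    hx1 (h ((φz _ _).2 ⟨_, zM, rfl⟩))) ρ.range Y (H.map ρ.rangeRestrict) rfl
    ((hH.coprime_dvd_left (H.card_map_dvd _)).coprime_dvd_right (Dvd.intro _ h1.symm))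
  obtain ⟨b, rfl⟩ := φs B
  obtain ⟨i, hi⟩ := hMp.exists_card_eq
  refine avg M H (fun u v => Subtype.ext (v.2.2 u u.2.1))
    (hi ▸ Nat.Coprime.pow_left i (hH.coprime_dvd_right pn).symm) b fun g => ?_
  obtain ⟨m, hm, e⟩ := (φz _ _).1 ((φe g.1 b).trans (hB _ ⟨g.1, g.2, rfl⟩))
  exact ⟨⟨m, hm⟩, e⟩

theorem split_nat (n m : ℕ) : m ≠ 0 →
    ∃ N N', m = N * N' ∧ N'.Coprime n ∧ ∀ q, q.Prime → q ∣ N → q ∣ n := by
  induction m using Nat.strong_induction_on with
  | _ m ih =>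
  intro m0
  by_cases h : m.Coprime n
  · exact ⟨1, m, (one_mul m).symm, h, fun q hq e => absurd (Nat.dvd_one.1 e) hq.one_lt.ne'⟩
  · obtain ⟨p, hp, ⟨k, rfl⟩, h2⟩ := Nat.Prime.not_coprime_iff_dvd.1 h
    have k0 : k ≠ 0 := right_ne_zero_of_mul m0
    obtain ⟨N, N', rfl, h3, h4⟩ := ih k (lt_mul_of_one_lt_left (Nat.pos_of_ne_zero k0) hp.one_lt) k0
    exact ⟨p * N, N', (mul_assoc _ _ _).symm, h3, fun q hq e => (hq.dvd_mul.1 e).elim
      (fun e => (Nat.prime_dvd_prime_iff_eq hq hp).1 e ▸ h2) (h4 q hq)⟩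

theorem hall_norm {G X E : Type} [Group G] [Finite G] [Fintype X] [Nontrivial X] [MulAction G X]
    [FaithfulSMul G X] [IsPretransitive G X] [AddCommGroup E] [DistribMulAction G E] (κ : G ≃ E)
    (hκ : ∀ g h, κ (g * h) = κ g + g • κ h) (a : X → E) (ha : ∀ (g : G) x, a (g • x) = g • a x)
    (hg : AddSubgroup.closure (Set.range a) = ⊤) (s : X → G) (hs : ∀ x, κ (s x)⁻¹ = a x) :
    ∃ H : Subgroup G, (Nat.card H).Coprime (Fintype.card X) ∧
      (∀ q, q.Prime → q ∣ H.index → q ∣ Fintype.card X) ∧ (∃ x : X, ∀ h ∈ H, h • x = x) ∧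
      ∀ x : X, (∀ h ∈ H, h • x = x) → (∀ h ∈ H, s x * h * (s x)⁻¹ ∈ H) ∧ s x ∉ H ∧
        ¬(orderOf (s x)).Coprime (Fintype.card X) := by
  have := solv κ hκ
  obtain ⟨N, N', hG, h1, h2⟩ := split_nat (Fintype.card X) _ (Nat.card_pos (α := G)).ne'
  have hc : N'.Coprime N := Nat.coprime_of_dvd fun q hq e e' =>
    hq.one_lt.ne' (Nat.eq_one_of_dvd_coprimes h1 e (h2 q hq e'))
  have hE : Nat.card E = N' * N := (Nat.card_congr κ).symm.trans (hG.trans (mul_comm _ _))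
  obtain ⟨h3, h4⟩ := card_sub κ hκ hc (hG.trans (mul_comm _ _))
  obtain ⟨x0, hx0⟩ := fix _ G X (sub κ hκ N') rfl (h3.symm ▸ h1)
  refine ⟨sub κ hκ N', h3.symm ▸ h1, h4.symm ▸ h2, ⟨x0, hx0⟩, fun x hx => ?_⟩
  have h5 : ∀ h ∈ sub κ hκ N', s x * h * (s x)⁻¹ ∈ sub κ hκ N' := fun h hh => by
    show κ (s x * h * (s x)⁻¹) ∈ tor E N'
    have h7 := hκ (s x) (s x)⁻¹
    rw [mul_inv_cancel, k_one κ hκ, hs] at h7
    rw [mul_assoc, hκ, hκ, hs, ← ha, hx h hh, smul_add, ← add_assoc, add_right_comm, ← h7,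
      zero_add]
    exact tor_smul _ hh
  have h6 : s x ∉ sub κ hκ N' := fun h => by
    have h7 : ∀ g, g ∈ sub κ hκ N' := fun g => by
      have : tor E N' = ⊤ := eq_top_iff.2 (hg ▸ (AddSubgroup.closure_le _).2 (by
        rintro _ ⟨y, rfl⟩
        obtain ⟨g, rfl⟩ := exists_smul_eq G x y
        rw [ha, ← hs]
        exact tor_smul g (inv_mem h)))
      show κ g ∈ tor E N'
      rw [this]; trivial
    obtain ⟨y, hy⟩ := exists_ne x
    obtain ⟨g, rfl⟩ := exists_smul_eq G x y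
    exact hy (hx g (h7 g))
  refine ⟨h5, h6, fun h => h6 ?_⟩
  have h7 : s x ∈ Subgroup.normalizer (sub κ hκ N' : Set G) :=
    Subgroup.mem_normalizer_fintype h5
  have h8 : s x ^ (sub κ hκ N').relIndex (Subgroup.normalizer (sub κ hκ N' : Set G)) ∈
      sub κ hκ N' := ((sub κ hκ N').subgroupOf _).pow_index_mem ⟨s x, h7⟩
  obtain ⟨r, hr⟩ := exists_pow_eq_self_of_coprime (x := s x)
    (n := (sub κ hκ N').relIndex (Subgroup.normalizer (sub κ hκ N' : Set G)))
    (Nat.coprime_of_dvd fun q hq e e' => hq.one_lt.ne' (Nat.eq_one_of_dvd_coprimes h e' (h2 q hq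
      (h4 ▸ e.trans (Subgroup.relIndex_dvd_index_of_le Subgroup.le_normalizer)))))
  exact hr ▸ pow_mem h8 r

end Pool.Agent.P.MP_6d14ae_al.J
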